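import Pool.Agent.WIR.StmtsB

namespace Pool.Agent.WIR.H53

theorem lam : LamStmt := by
  have h2 : (0 : ℝ) < Real.log 2 := Real.log_pos (by norm_num)
  have hlam : Pool.Agent.WIR.lam = Real.log 9 / Real.log 2 := rfl
  have h3 : 3 ≤ Pool.Agent.WIR.lam := by
    rw [hlam, le_div_iff₀ h2]
    have : Real.log ((2 : ℝ) ^ 3) ≤ Real.log 9 := Real.log_le_log (by norm_num) (by norm_num)
    rw [Real.log_pow] at this
    push_cast at this
    exact this
  have h4 : Pool.Agent.WIR.lam < 317 / 100 := by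
    rw [hlam, div_lt_iff₀ h2]
    have h9 : ((9 : ℝ) ^ 100) < ((2 : ℝ) ^ 317) := by
      have e : ((2 : ℝ) ^ 317) = (2 ^ 100) ^ 3 * 2 ^ 17 := by rw [← pow_mul, ← pow_add]
      rw [e]
      norm_num
    have : Real.log ((9 : ℝ) ^ 100) < Real.log ((2 : ℝ) ^ 317) :=
      Real.log_lt_log (by positivity) h9
    rw [Real.log_pow, Real.log_pow] at this
    push_cast at this
    linarith
  refine ⟨h3, h4, ?_⟩
  intro s hs
  have hpos : 0 < Pool.Agent.WIR.lam := by linarith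
  have hs' : (3 : ℝ) ≤ (s : ℝ) := by exact_mod_cast hs
  have h0 : 0 ≤ ((s : ℝ) - 3) / Pool.Agent.WIR.lam := div_nonneg (by linarith) hpos.le
  refine ⟨⌊((s : ℝ) - 3) / Pool.Agent.WIR.lam⌋₊, ?_, ?_⟩
  · have := Nat.floor_le h0
    rw [le_div_iff₀ hpos] at this
    linarith
  · have h5 := Nat.lt_floor_add_one (((s : ℝ) - 3) / Pool.Agent.WIR.lam)
    set w := ⌊((s : ℝ) - 3) / Pool.Agent.WIR.lam⌋₊
    rw [div_lt_iff₀ hpos] at h5
    have hw : (0 : ℝ) ≤ (w : ℝ) := Nat.cast_nonneg w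
    have h6 : ((w : ℝ) + 1) * Pool.Agent.WIR.lam ≤ ((w : ℝ) + 1) * (317 / 100) :=
      mul_le_mul_of_nonneg_left h4.le (by linarith)
    have h7 : (31 : ℝ) * s ≤ 100 * w + 195 := by linarith
    exact_mod_cast h7

end Pool.Agent.WIR.H53
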