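import Pool.Agent.WIR.StmtsB

namespace Pool.Agent.WIR.H53

open scoped BigOperators Topology

theorem fpe_mono (h1 : MonStmt) (B s R0 : ℕ) (V W : ℕ → ℕ → ℝ) (l : ℕ)
    (h : ∀ k x, V k x ≤ W k x) : FPE B s R0 V l ≤ FPE B s R0 W l := by
  unfold FPE
  refine Finset.sum_le_sum (fun r _ => ?_)
  refine mul_le_mul_of_nonneg_left ?_ (by positivity)
  split_ifs
  · exact (h1.1 B (V (r / 2 + 1)) (W (r / 2 + 1)) (l + s) (fun x _ _ => h _ x)).2
  · exact (h1.1 B (V (r / 2 + 1)) (W (r / 2 + 1)) (l + s) (fun x _ _ => h _ x)).1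
  · exact le_refl _

theorem gh_lin (B P : ℕ) (c : ℝ) (F : ℕ → ℕ → ℝ) (l : ℕ) :
    Gh B (fun x => c + ∑ i ∈ Finset.range P, F i x) l
      = Gh B (fun _ => c) l + ∑ i ∈ Finset.range P, Gh B (F i) l := by
  unfold Gh
  rw [Finset.sum_comm, ← Finset.sum_add_distrib]
  refine Finset.sum_congr rfl (fun x _ => ?_)
  rw [mul_add, Finset.mul_sum]

theorem kh_lin (B P : ℕ) (c : ℝ) (F : ℕ → ℕ → ℝ) (l : ℕ) :
    Kh B (fun x => c + ∑ i ∈ Finset.range P, F i x) l
      = Kh B (fun _ => c) l + ∑ i ∈ Finset.range P, Kh B (F i) l := by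
  unfold Kh
  rw [Finset.sum_comm, ← Finset.sum_add_distrib]
  refine Finset.sum_congr rfl (fun x _ => ?_)
  rw [mul_add, Finset.mul_sum]

theorem fpe_lin (h1 : MonStmt) (B s R0 P : ℕ) (c : ℝ) (hc : 0 ≤ c) (F : ℕ → ℕ → ℕ → ℝ) (l : ℕ) :
    FPE B s R0 (fun k x => c + ∑ i ∈ Finset.range P, F i k x) l
      ≤ c + ∑ i ∈ Finset.range P, FPE B s R0 (F i) l := by
  have hw : ∑ r ∈ Finset.range (s + 1), (s.choose r : ℝ) * (1 / 2 : ℝ) ^ s = 1 := by
    rw [← Finset.sum_mul]
    have : ∑ r ∈ Finset.range (s + 1), (s.choose r : ℝ) = 2 ^ s := by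
      exact_mod_cast Nat.sum_range_choose s
    rw [this, ← mul_pow]
    norm_num
  have key : FPE B s R0 (fun k x => c + ∑ i ∈ Finset.range P, F i k x) l
      ≤ ∑ r ∈ Finset.range (s + 1), ((s.choose r : ℝ) * (1 / 2 : ℝ) ^ s * c
        + ∑ i ∈ Finset.range P, (s.choose r : ℝ) * (1 / 2 : ℝ) ^ s *
          (if r < R0 then (if Even r then Kh B (F i (r / 2 + 1)) (l + s)
            else Gh B (F i (r / 2 + 1)) (l + s)) else 0)) := by
    unfold FPE
    refine Finset.sum_le_sum (fun r _ => ?_)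
    rw [← Finset.mul_sum, ← mul_add]
    refine mul_le_mul_of_nonneg_left ?_ (by positivity)
    split_ifs
    · rw [kh_lin B P c (fun i => F i (r / 2 + 1)) (l + s)]
      have := (h1.2.2.1 B c (l + s) hc).2
      linarith
    · rw [gh_lin B P c (fun i => F i (r / 2 + 1)) (l + s)]
      have := (h1.2.2.1 B c (l + s) hc).1
      linarith
    · simp only [Finset.sum_const_zero, add_zero]
      exact hc
  refine key.trans (le_of_eq ?_)
  rw [Finset.sum_add_distrib, ← Finset.sum_mul, hw, one_mul, Finset.sum_comm]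
  rfl

theorem inv_sq_sum (P : ℕ) : ∑ i ∈ Finset.range P, 1 / ((i : ℝ) + 1) ^ 2 ≤ 2 := by
  have h : ∀ n : ℕ, ∑ i ∈ Finset.range (n + 1), 1 / ((i : ℝ) + 1) ^ 2 ≤ 2 - 1 / ((n : ℝ) + 1) := by
    intro n
    induction n with
    | zero => norm_num
    | succ n ih =>
      rw [Finset.sum_range_succ]
      have h1 : 1 / (((n + 1 : ℕ) : ℝ) + 1) ^ 2 ≤ 1 / ((n : ℝ) + 1) - 1 / (((n + 1 : ℕ) : ℝ) + 1) := by
        push_cast
        have ha : (0 : ℝ) < (n : ℝ) + 1 := by positivity
        have hb : (0 : ℝ) < (n : ℝ) + 1 + 1 := by positivity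
        rw [div_sub_div _ _ ha.ne' hb.ne', div_le_div_iff₀ (by positivity) (by positivity)]
        nlinarith [ha, hb]
      linarith
  rcases P with _ | P
  · norm_num
  · have h1 := h P
    have h2 : 0 < 1 / ((P : ℝ) + 1) := by positivity
    linarith

theorem small_tail (P : ℕ) (β : ℕ → ℝ) (ε : ℝ) (hε : 0 < ε) : ∃ s1 : ℕ, ∀ s : ℕ, s1 ≤ s →
    ∑ i ∈ Finset.range P, 2 * (2 * β i / Real.sqrt ((s : ℝ) + 1) + Real.exp (-((s : ℝ) / 200))) ≤ ε := by
  have hlim : Filter.Tendsto (fun s : ℕ => ∑ i ∈ Finset.range P,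
      2 * (2 * β i / Real.sqrt ((s : ℝ) + 1) + Real.exp (-((s : ℝ) / 200)))) Filter.atTop
      (𝓝 (∑ i ∈ Finset.range P, 2 * (0 + 0))) := by
    refine tendsto_finsetSum _ (fun i _ => ?_)
    refine Filter.Tendsto.const_mul _ (Filter.Tendsto.add ?_ ?_)
    · refine Filter.Tendsto.div_atTop tendsto_const_nhds ?_
      refine Real.tendsto_sqrt_atTop.comp ?_
      exact Filter.tendsto_atTop_add_const_right _ _ tendsto_natCast_atTop_atTop
    · refine Real.tendsto_exp_neg_atTop_nhds_zero.comp ?_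
      exact tendsto_natCast_atTop_atTop.atTop_div_const (by norm_num)
  have h0 : (∑ i ∈ Finset.range P, 2 * ((0 : ℝ) + 0)) = 0 := by simp
  rw [h0] at hlim
  obtain ⟨s1, hs1⟩ := Filter.eventually_atTop.mp (hlim.eventually_lt_const hε)
  exact ⟨s1, fun s hs => (hs1 s hs).le⟩

open Classical in
theorem wht (h1 : MonStmt) (_h2 : DvbStmt) (h3 : BexStmt) (h4 : FpbStmt) (h5 : CneStmt)
    (h6 : TriStmt) : WhtStmt := by
  intro d η hd0 hd1 hη
  obtain ⟨R, hR⟩ := exists_pow_lt_of_lt_one (show (0 : ℝ) < η / 3 by linarith)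
    (show 1 - d / 8 < 1 by linarith)
  obtain ⟨G, hG⟩ := exists_nat_ge (max 4 (84 / η))
  have hG4 : 4 ≤ G := by exact_mod_cast (le_max_left _ _).trans hG
  have hG84 : 84 / η ≤ (G : ℝ) := (le_max_right _ _).trans hG
  set β : ℕ → ℕ := fun i => G * (i + 1) ^ 3 with hβ
  set gg : ℕ → ℕ := fun i => 4 * β i with hgg
  have hmono : Monotone gg := by
    intro a b hab
    simp only [hgg, hβ]
    exact Nat.mul_le_mul_left _ (Nat.mul_le_mul_left _ (Nat.pow_le_pow_left (by omega) 3))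
  set P := PR gg R 0 with hP
  obtain ⟨s1, hs1⟩ := small_tail P (fun i => (β i : ℝ)) (η / 3) (by linarith)
  refine ⟨P, max s1 (40 * (P + 1)), ?_⟩
  intro h b Q t B hT q j l hq hTri hs
  set s := q.2 - l with hsdef
  have hsa : s1 ≤ s := (le_max_left _ _).trans hs
  have hsb : 40 * (P + 1) ≤ s := (le_max_right _ _).trans hs
  have hql : q.2 = l + s := by omega
  set F : ℕ → ℕ → ℕ → ℝ := fun i k x =>
    (Kh B)^[i] (fun x' => if badE Q t (gg (0 + i)) (j + k + i) x' ∧ x' ≤ B then (1 : ℝ) else 0) x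
    with hF
  have step1 : FPE B s (s + 1) (fun k x => Dv B d b P (j + k) x) l
      ≤ FPE B s (s + 1) (fun k x => (1 - d / 8) ^ R + ∑ i ∈ Finset.range P, F i k x) l := by
    refine fpe_mono h1 B s (s + 1) _ _ l (fun k x => ?_)
    have ha := h6 h b Q t B d gg hT hd0.le hd1 hmono R 0 P (j + k) x (le_refl _)
    rw [h5 B (fun i j l => badE Q t (gg i) j l) P 0 (j + k) x] at ha
    exact ha
  have step2 := fpe_lin h1 B s (s + 1) P ((1 - d / 8) ^ R) (pow_nonneg (by linarith) _) F l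
  have step3 : ∀ i ∈ Finset.range P, FPE B s (s + 1) (F i) l
      ≤ 14 / (G : ℝ) * (1 / ((i : ℝ) + 1) ^ 2)
        + 2 * (2 * (β i : ℝ) / Real.sqrt ((s : ℝ) + 1) + Real.exp (-((s : ℝ) / 200))) := by
    intro i hi
    have hiP := Finset.mem_range.mp hi
    have hβ4 : 4 ≤ β i := by
      simp only [hβ]
      calc 4 = 4 * 1 := by norm_num
        _ ≤ G * (i + 1) ^ 3 := Nat.mul_le_mul hG4 (Nat.one_le_pow _ _ (by omega))
    have hβpos : (0 : ℝ) < (β i : ℝ) := by
      have : 0 < β i := by omega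
      exact_mod_cast this
    set f : ℕ → ℕ → ℝ := fun a x => if badE Q t (gg (0 + i)) a x ∧ x ≤ B then (1 : ℝ) else 0 with hf
    have hb := h4 B s i j l f (1 / (β i : ℝ))
      (3 / (β i : ℝ) + 2 * (β i : ℝ) / Real.sqrt ((s : ℝ) + 1) + Real.exp (-((s : ℝ) / 200)))
      (by intro a x; simp only [hf]; split_ifs <;> norm_num) (by positivity) (by positivity)
      (by
        intro e x he hx
        obtain ⟨y, hy⟩ := Nat.exists_eq_add_of_le hx
        have hc := h3 h b Q t hT q j l y (β i) i e hq hTri hβ4 he (by omega)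
        rw [← hsdef] at hc
        have hqy : q.2 + y = x := by omega
        rw [hqy] at hc
        have hle : ∑ r ∈ (Finset.range (s + 1)).filter (fun r => r % 2 = e),
            (s.choose r : ℝ) * (1 / 2 : ℝ) ^ s * f (j + r / 2 + 1 + i) x
            ≤ ∑ r ∈ (Finset.range (s + 1)).filter (fun r => r % 2 = e),
            (s.choose r : ℝ) * (1 / 2 : ℝ) ^ s *
              (if badE Q t (4 * β i) (j + r / 2 + 1 + i) x then 1 else 0) := by
          refine Finset.sum_le_sum (fun r _ => ?_)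
          refine mul_le_mul_of_nonneg_left ?_ (by positivity)
          simp only [hf, zero_add, hgg]
          by_cases hbad : badE Q t (4 * β i) (j + r / 2 + 1 + i) x
          · rw [if_pos hbad]
            split_ifs
            · exact le_refl _
            · norm_num
          · rw [if_neg hbad, if_neg (fun hh => hbad hh.1)]
        refine hle.trans (hc.trans (le_of_eq ?_))
        have : (x : ℝ) - ((l + s : ℕ) : ℝ) = (y : ℝ) := by
          rw [hy]; push_cast; ring
        rw [this]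
        field_simp
        ring)
    have hd : F i = fun k x => (Kh B)^[i] (f (j + k + i)) x := rfl
    rw [hd]
    refine hb.trans ?_
    have h14 : 2 * (1 / (β i : ℝ) * (4 * (i : ℝ) + 4)) + 2 * (3 / (β i : ℝ))
        ≤ 14 / (G : ℝ) * (1 / ((i : ℝ) + 1) ^ 2) := by
      have hGpos : (0 : ℝ) < (G : ℝ) := by
        have : 0 < G := by omega
        exact_mod_cast this
      have hi1 : (0 : ℝ) < (i : ℝ) + 1 := by positivity
      have hβc : (β i : ℝ) = (G : ℝ) * ((i : ℝ) + 1) ^ 3 := by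
        simp only [hβ]; push_cast; ring
      rw [hβc]
      have e1 : 2 * (1 / ((G : ℝ) * ((i : ℝ) + 1) ^ 3) * (4 * (i : ℝ) + 4))
          + 2 * (3 / ((G : ℝ) * ((i : ℝ) + 1) ^ 3))
          = (8 * (i : ℝ) + 14) / ((G : ℝ) * ((i : ℝ) + 1) ^ 3) := by
        field_simp
        ring
      have e2 : 14 / (G : ℝ) * (1 / ((i : ℝ) + 1) ^ 2)
          = (14 * ((i : ℝ) + 1)) / ((G : ℝ) * ((i : ℝ) + 1) ^ 3) := by
        field_simp
      rw [e1, e2]
      have hi0 : (0 : ℝ) ≤ (i : ℝ) := Nat.cast_nonneg i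
      exact div_le_div_of_nonneg_right (by linarith) (by positivity)
    nlinarith [h14]
  have step4 : ∑ i ∈ Finset.range P, FPE B s (s + 1) (F i) l ≤ η / 3 + η / 3 := by
    refine (Finset.sum_le_sum step3).trans ?_
    rw [Finset.sum_add_distrib, ← Finset.mul_sum]
    have hGpos : (0 : ℝ) < (G : ℝ) := by
      have : 0 < G := by omega
      exact_mod_cast this
    have ha : 14 / (G : ℝ) * ∑ i ∈ Finset.range P, 1 / ((i : ℝ) + 1) ^ 2 ≤ η / 3 := by
      calc 14 / (G : ℝ) * ∑ i ∈ Finset.range P, 1 / ((i : ℝ) + 1) ^ 2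
          ≤ 14 / (G : ℝ) * 2 := mul_le_mul_of_nonneg_left (inv_sq_sum P) (by positivity)
        _ = 28 / (G : ℝ) := by ring
        _ ≤ η / 3 := by
          rw [div_le_iff₀ hη] at hG84
          rw [div_le_iff₀ hGpos]
          linarith
    have hb := hs1 s hsa
    linarith
  linarith

end Pool.Agent.WIR.H53
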